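import Pool.Agent.FB.Geo.Common

/-! MP_15d50e_gt, module GEO: elementary facts on the lattice, the sets `US s`, `ES t` and Bloch
functions. -/

set_option autoImplicit false

open Complex Set
open scoped ComplexConjugate Real

namespace FB

/-! ### The lattice points -/

@[simp] theorem lp_zero : lp 0 = 0 := by simp [lp]

theorem lp_add (p q : ℤ × ℤ) : lp (p + q) = lp p + lp q := by
  simp only [lp, Prod.fst_add, Prod.snd_add, Int.cast_add]
  ring

theorem lp_neg (p : ℤ × ℤ) : lp (-p) = -lp p := by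
  simp only [lp, Prod.fst_neg, Prod.snd_neg, Int.cast_neg]
  ring

theorem lp_sub (p q : ℤ × ℤ) : lp (p - q) = lp p - lp q := by
  rw [sub_eq_add_neg, lp_add, lp_neg, sub_eq_add_neg]

theorem I_mul_lp (p : ℤ × ℤ) : I * lp p = lp (-p.2, p.1) := by
  simp only [lp, Int.cast_neg]
  ring_nf
  rw [I_sq]
  ring

theorem conj_lp (p : ℤ × ℤ) : conj (lp p) = lp (p.1, -p.2) := by
  simp only [lp, map_add, map_mul, conj_I, Int.cast_neg, map_intCast]
  ring

theorem lp_re (p : ℤ × ℤ) : (lp p).re = p.1 := by simp [lp]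

theorem lp_im (p : ℤ × ℤ) : (lp p).im = p.2 := by simp [lp]

theorem one_le_norm_lp {p : ℤ × ℤ} (hp : p ≠ 0) : 1 ≤ ‖lp p‖ := by
  by_cases h1 : p.1 = 0
  · have h2 : p.2 ≠ 0 := fun h2 => hp (Prod.ext h1 h2)
    have h3 : (1 : ℝ) ≤ |(p.2 : ℝ)| := by exact_mod_cast Int.one_le_abs h2
    have := abs_im_le_norm (lp p)
    rw [lp_im] at this
    linarith
  · have h3 : (1 : ℝ) ≤ |(p.1 : ℝ)| := by exact_mod_cast Int.one_le_abs h1
    have := abs_re_le_norm (lp p)
    rw [lp_re] at this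
    linarith

theorem norm_chi (κ : ℂ) (p : ℤ × ℤ) : ‖chi κ p‖ = 1 := by
  unfold chi
  exact norm_exp_ofReal_mul_I _

theorem chi_ne_zero (κ : ℂ) (p : ℤ × ℤ) : chi κ p ≠ 0 := exp_ne_zero _

/-! ### The sets `US s` and `ES t` -/

theorem mem_US_add {s : ℝ} {x : ℂ} (p : ℤ × ℤ) : x + lp p ∈ US s ↔ x ∈ US s := by
  constructor
  · intro h q
    have := h (q + p)
    rwa [lp_add, add_sub_add_right_eq_sub] at this
  · intro h q
    have := h (q - p)
    rwa [lp_sub, ← sub_add, sub_add_eq_add_sub] at this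

theorem mem_ES_add {s : ℝ} {x : ℂ} (p : ℤ × ℤ) : x + lp p ∈ ES s ↔ x ∈ ES s := by
  constructor
  · intro h q
    have := h (q + p)
    rwa [lp_add, add_sub_add_right_eq_sub] at this
  · intro h q
    have := h (q - p)
    rwa [lp_sub, ← sub_add, sub_add_eq_add_sub] at this

theorem mem_US_sub {s : ℝ} {x : ℂ} (p : ℤ × ℤ) : x - lp p ∈ US s ↔ x ∈ US s := by
  rw [sub_eq_add_neg, ← lp_neg]
  exact mem_US_add _

theorem mem_ES_sub {s : ℝ} {x : ℂ} (p : ℤ × ℤ) : x - lp p ∈ ES s ↔ x ∈ ES s := by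
  rw [sub_eq_add_neg, ← lp_neg]
  exact mem_ES_add _

theorem norm_neg_sub_lp (x : ℂ) (p : ℤ × ℤ) : ‖-x - lp p‖ = ‖x - lp (-p)‖ := by
  rw [lp_neg, sub_neg_eq_add, ← norm_neg]
  congr 1
  ring

theorem norm_I_mul_sub_lp (x : ℂ) (p : ℤ × ℤ) : ‖I * x - lp p‖ = ‖x - lp (p.2, -p.1)‖ := by
  have h : I * x - lp p = I * (x - lp (p.2, -p.1)) := by
    rw [mul_sub, I_mul_lp]
    simp
  rw [h, norm_mul, norm_I, one_mul]

theorem norm_conj_sub_lp (x : ℂ) (p : ℤ × ℤ) : ‖conj x - lp p‖ = ‖x - lp (p.1, -p.2)‖ := by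
  have h : conj x - lp p = conj (x - lp (p.1, -p.2)) := by
    rw [map_sub, conj_lp]
    simp
  rw [h, Complex.norm_conj]

theorem US_neg {s : ℝ} {x : ℂ} (h : x ∈ US s) : -x ∈ US s := fun p => by
  rw [norm_neg_sub_lp]
  exact h _

theorem US_I {s : ℝ} {x : ℂ} (h : x ∈ US s) : I * x ∈ US s := fun p => by
  rw [norm_I_mul_sub_lp]
  exact h _

theorem US_conj {s : ℝ} {x : ℂ} (h : x ∈ US s) : conj x ∈ US s := fun p => by
  rw [norm_conj_sub_lp]
  exact h _

theorem ES_neg {s : ℝ} {x : ℂ} (h : x ∈ ES s) : -x ∈ ES s := fun p => by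
  rw [norm_neg_sub_lp]
  exact h _

theorem ES_I {s : ℝ} {x : ℂ} (h : x ∈ ES s) : I * x ∈ ES s := fun p => by
  rw [norm_I_mul_sub_lp]
  exact h _

theorem ES_conj {s : ℝ} {x : ℂ} (h : x ∈ ES s) : conj x ∈ ES s := fun p => by
  rw [norm_conj_sub_lp]
  exact h _

theorem US_subset_ES (s : ℝ) : US s ⊆ ES s := fun _ h p => (h p).le

theorem US_mono {s t : ℝ} (h : s ≤ t) : US t ⊆ US s := fun _ hx p => h.trans_lt (hx p)

theorem ES_subset_US {s t : ℝ} (h : s < t) : ES t ⊆ US s := fun _ hx p => h.trans_le (hx p)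

theorem ES_subset_US_half {t : ℝ} (h : 0 < t) : ES t ⊆ US (t / 2) :=
  ES_subset_US (by linarith)

theorem isClosed_ES (t : ℝ) : IsClosed (ES t) := by
  have : ES t = ⋂ p : ℤ × ℤ, {x | t ≤ ‖x - lp p‖} := by
    ext x
    simp [ES]
  rw [this]
  exact isClosed_iInter fun p => isClosed_le continuous_const (by fun_prop)

/-- only finitely many lattice points are near a point -/
theorem finite_near (x : ℂ) (R : ℝ) : {p : ℤ × ℤ | ‖x - lp p‖ ≤ R}.Finite := by
  have hfin : (Icc ⌊x.re - R⌋ ⌈x.re + R⌉ ×ˢ Icc ⌊x.im - R⌋ ⌈x.im + R⌉ : Set (ℤ × ℤ)).Finite :=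
    (finite_Icc _ _).prod (finite_Icc _ _)
  refine hfin.subset ?_
  intro p hp
  have hp' : ‖x - lp p‖ ≤ R := hp
  have h1 := (abs_re_le_norm (x - lp p)).trans hp'
  have h2 := (abs_im_le_norm (x - lp p)).trans hp'
  rw [sub_re, lp_re, abs_le] at h1
  rw [sub_im, lp_im, abs_le] at h2
  refine ⟨⟨?_, ?_⟩, ⟨?_, ?_⟩⟩
  · have h3 : x.re - R ≤ (p.1 : ℝ) := by linarith
    exact_mod_cast (Int.floor_le _).trans h3
  · have h3 : (p.1 : ℝ) ≤ x.re + R := by linarith
    exact_mod_cast h3.trans (Int.le_ceil _)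
  · have h3 : x.im - R ≤ (p.2 : ℝ) := by linarith
    exact_mod_cast (Int.floor_le _).trans h3
  · have h3 : (p.2 : ℝ) ≤ x.im + R := by linarith
    exact_mod_cast h3.trans (Int.le_ceil _)

theorem isOpen_US (s : ℝ) : IsOpen (US s) := by
  rw [isOpen_iff_mem_nhds]
  intro x hx
  have hF := finite_near x (s + 1)
  have h1 : ∀ᶠ y in nhds x, ∀ p ∈ {p : ℤ × ℤ | ‖x - lp p‖ ≤ s + 1}, s < ‖y - lp p‖ := by
    rw [Filter.eventually_all_finite hF]
    intro p _
    have hc : Continuous fun y : ℂ => ‖y - lp p‖ := by fun_prop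
    exact hc.continuousAt.eventually (lt_mem_nhds (hx p))
  have h2 : ∀ᶠ y in nhds x, ‖y - x‖ < 1 := by
    have hc : Continuous fun y : ℂ => ‖y - x‖ := by fun_prop
    refine hc.continuousAt.eventually (gt_mem_nhds ?_)
    simp
  filter_upwards [h1, h2] with y hy1 hy2
  intro p
  by_cases hp : ‖x - lp p‖ ≤ s + 1
  · exact hy1 p hp
  · push Not at hp
    have h3 : ‖x - lp p‖ ≤ ‖y - lp p‖ + ‖y - x‖ := by
      have := norm_sub_le (y - lp p) (y - x)
      rwa [sub_sub_sub_cancel_left] at this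
    linarith

/-- points which are at least `s` and at most `1 - s` away from one lattice point are in `ES s` -/
theorem mem_ES_of_near {s : ℝ} {x : ℂ} {p : ℤ × ℤ} (h1 : s ≤ ‖x - lp p‖)
    (h2 : ‖x - lp p‖ ≤ 1 - s) : x ∈ ES s := by
  intro q
  by_cases hq : q = p
  · rw [hq]
    exact h1
  · have h3 : 1 ≤ ‖lp (q - p)‖ := one_le_norm_lp (sub_ne_zero.2 hq)
    have h4 : ‖lp (q - p)‖ ≤ ‖x - lp p‖ + ‖x - lp q‖ := by
      have := norm_sub_le (x - lp p) (x - lp q)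
      rwa [sub_sub_sub_cancel_left, ← lp_sub] at this
    linarith

/-- points which are more than `s` and less than `1 - s` away from one lattice point are in `US s` -/
theorem mem_US_of_near {s : ℝ} {x : ℂ} {p : ℤ × ℤ} (h1 : s < ‖x - lp p‖)
    (h2 : ‖x - lp p‖ < 1 - s) : x ∈ US s := by
  intro q
  by_cases hq : q = p
  · rw [hq]
    exact h1
  · have h3 : 1 ≤ ‖lp (q - p)‖ := one_le_norm_lp (sub_ne_zero.2 hq)
    have h4 : ‖lp (q - p)‖ ≤ ‖x - lp p‖ + ‖x - lp q‖ := by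
      have := norm_sub_le (x - lp p) (x - lp q)
      rwa [sub_sub_sub_cancel_left, ← lp_sub] at this
    linarith

theorem mem_US_of_norm {s : ℝ} {x : ℂ} (h1 : s < ‖x‖) (h2 : ‖x‖ < 1 - s) : x ∈ US s :=
  mem_US_of_near (p := 0) (by simpa using h1) (by simpa using h2)

theorem mem_ES_of_norm {s : ℝ} {x : ℂ} (h1 : s ≤ ‖x‖) (h2 : ‖x‖ ≤ 1 - s) : x ∈ ES s :=
  mem_ES_of_near (p := 0) (by simpa using h1) (by simpa using h2)

/-- every point is in the closed unit square around some lattice point -/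
theorem exists_near (x : ℂ) :
    ∃ p : ℤ × ℤ, |(x - lp p).re| ≤ 1 / 2 ∧ |(x - lp p).im| ≤ 1 / 2 := by
  refine ⟨(round x.re, round x.im), ?_, ?_⟩
  · rw [sub_re, lp_re]
    exact abs_sub_round _
  · rw [sub_im, lp_im]
    exact abs_sub_round _

theorem norm_le_of_square {y : ℂ} (h1 : |y.re| ≤ 1 / 2) (h2 : |y.im| ≤ 1 / 2) :
    ‖y‖ ≤ Real.sqrt 2 / 2 := by
  have h3 : ‖y‖ ^ 2 ≤ (Real.sqrt 2 / 2) ^ 2 := by
    rw [Complex.sq_norm, normSq_apply, div_pow, Real.sq_sqrt (by norm_num)]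
    rw [abs_le] at h1 h2
    nlinarith [h1.1, h1.2, h2.1, h2.2]
  exact le_of_sq_le_sq h3 (by positivity)

theorem sqrt2_half_le : Real.sqrt 2 / 2 ≤ 3 / 4 := by
  have h : Real.sqrt 2 ≤ 3 / 2 := Real.sqrt_le_iff.2 ⟨by norm_num, by norm_num⟩
  linarith

/-- every point is at distance at most `√2/2 < 3/4` from a lattice point -/
theorem exists_near_norm (x : ℂ) : ∃ p : ℤ × ℤ, ‖x - lp p‖ ≤ Real.sqrt 2 / 2 := by
  obtain ⟨p, h1, h2⟩ := exists_near x
  exact ⟨p, norm_le_of_square h1 h2⟩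

theorem exists_near_le (x : ℂ) : ∃ p : ℤ × ℤ, ‖x - lp p‖ ≤ 3 / 4 := by
  obtain ⟨p, h⟩ := exists_near_norm x
  exact ⟨p, h.trans sqrt2_half_le⟩

/-! ### The momentum -/

theorem norm_kap_pos {N : ℕ} (hN : 1 ≤ N) : 0 < ‖kap N‖ := by
  unfold kap
  rw [norm_mul]
  have hN' : (0 : ℝ) < N := by exact_mod_cast hN
  refine mul_pos ?_ ?_
  · rw [norm_pos_iff]
    norm_cast
    positivity
  · rw [norm_pos_iff]
    intro h
    have := congrArg Complex.re h
    simp at this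

/-! ### Bloch harmonic functions -/

theorem dpair_inj {a b a' b' : ℂ} (h : dpair a b = dpair a' b') : a = a' ∧ b = b' := by
  have h1 := congrArg (fun f : ℂ →L[ℝ] ℂ => f 1) h
  have h2 := congrArg (fun f : ℂ →L[ℝ] ℂ => f I) h
  simp only [dpair_apply, map_one, mul_one, conj_I] at h1 h2
  have h3 : a - b = a' - b' := by
    have h4 : I * (a - b) = I * (a' - b') := by linear_combination h2
    exact mul_left_cancel₀ I_ne_zero h4
  constructor
  · linear_combination (h1 + h3) / 2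
  · linear_combination (h1 - h3) / 2

theorem smul_dpair (c a b : ℂ) : (ContinuousLinearMap.mul ℝ ℂ c).comp (dpair a b) =
    dpair (c * a) (c * b) := by
  ext w
  simp
  ring

namespace IsBlochHarm

variable {κ : ℂ} {s : ℝ} {ψ ω : ℂ → ℂ}

/-- the derivative of a Bloch function is a Bloch function -/
theorem ω_bloch (h : IsBlochHarm κ s ψ ω) {z : ℂ} (hz : z ∈ US s) (p : ℤ × ℤ) :
    ω (z + lp p) = chi κ p * ω z := by
  have h1 : HasFDerivAt (fun w => ψ (w + lp p))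
      (dpair (ω (z + lp p)) (-(conj (ω (-(z + lp p)))))) z :=
    (hasFDerivAt_comp_add_right (lp p)).2 (h.deriv (z + lp p) ((mem_US_add p).2 hz))
  have h2 : HasFDerivAt (fun w => chi κ p * ψ w)
      ((ContinuousLinearMap.mul ℝ ℂ (chi κ p)).comp (dpair (ω z) (-(conj (ω (-z)))))) z :=
    (ContinuousLinearMap.hasFDerivAt (ContinuousLinearMap.mul ℝ ℂ (chi κ p))).comp z
      (h.deriv z hz)
  have h3 : (fun w => ψ (w + lp p)) =ᶠ[nhds z] fun w => chi κ p * ψ w := by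
    filter_upwards [(isOpen_US s).mem_nhds hz] with w hw
    exact h.bloch w hw p
  have h4 := (h1.congr_of_eventuallyEq h3.symm).unique h2
  rw [smul_dpair] at h4
  exact (dpair_inj h4).1

theorem norm_ψ_add (h : IsBlochHarm κ s ψ ω) {z : ℂ} (hz : z ∈ US s) (p : ℤ × ℤ) :
    ‖ψ (z + lp p)‖ = ‖ψ z‖ := by
  rw [h.bloch z hz p, norm_mul, norm_chi, one_mul]

theorem norm_ω_add (h : IsBlochHarm κ s ψ ω) {z : ℂ} (hz : z ∈ US s) (p : ℤ × ℤ) :
    ‖ω (z + lp p)‖ = ‖ω z‖ := by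
  rw [h.ω_bloch hz p, norm_mul, norm_chi, one_mul]

end IsBlochHarm

end FB
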