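import Pool.Agent.FB.GeoA.Imm

/-! MP_15d50e_gt, module GEO, part G3: `|u| < 1` outside the closed holes. -/

set_option autoImplicit false

open Complex Set Filter Topology
open scoped ComplexConjugate Real

namespace FB

/-- at a local maximum the second derivative is not positive -/
theorem second_deriv_nonpos {h h' : ℝ → ℝ} {L : ℝ} (hd : ∀ᶠ r in 𝓝 (0 : ℝ), HasDerivAt h (h' r) r)
    (hd2 : HasDerivAt h' L 0) (hmax : IsLocalMax h 0) : L ≤ 0 := by
  by_contra hL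
  push Not at hL
  have h0 : HasDerivAt h (h' 0) 0 := hd.self_of_nhds
  have h1 : deriv h =ᶠ[𝓝 0] h' := by
    filter_upwards [hd] with r hr
    exact hr.deriv
  have h2 : deriv (deriv h) 0 = L := by
    rw [h1.deriv_eq]
    exact hd2.deriv
  have h3 : deriv h 0 = 0 := hmax.deriv_eq_zero
  have h4 : IsLocalMin h 0 :=
    isLocalMin_of_deriv_deriv_pos (by rw [h2]; exact hL) h3 h0.continuousAt
  have h5 : h =ᶠ[𝓝 0] fun _ => h 0 := by
    filter_upwards [hmax, h4] with r hr1 hr2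
    exact le_antisymm hr1 hr2
  have h6 : deriv h =ᶠ[𝓝 0] fun _ => 0 := by
    have := h5.deriv
    simpa using this
  have h7 : deriv (deriv h) 0 = 0 := by
    rw [h6.deriv_eq]
    simp
  linarith

variable {κ : ℂ} {s : ℝ} {ψ ω : ℂ → ℂ}

theorem hasDerivAt_line (z d : ℂ) (r : ℝ) : HasDerivAt (fun r : ℝ => z + r * d) d r := by
  have h1 : HasDerivAt (fun r : ℝ => (r : ℂ)) 1 r := Complex.ofRealCLM.hasDerivAt
  simpa using (h1.mul_const d).const_add z

/-- the derivative of `ψ` along a line -/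
noncomputable def dline (ω : ℂ → ℂ) (z d : ℂ) (r : ℝ) : ℂ :=
  ω (z + r * d) * d + -conj (ω (-(z + r * d))) * conj d

theorem IsBlochHarm.hasDerivAt_along (h : IsBlochHarm κ s ψ ω) {z d : ℂ} {r : ℝ}
    (hz : z + r * d ∈ US s) : HasDerivAt (fun r : ℝ => ψ (z + r * d)) (dline ω z d r) r := by
  have h1 := (h.deriv _ hz).comp_hasDerivAt r (hasDerivAt_line z d r)
  rw [dpair_apply] at h1
  exact h1

theorem IsBlochHarm.hasDerivAt_ω (h : IsBlochHarm κ s ψ ω) {z : ℂ} (hz : z ∈ US s) :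
    HasDerivAt ω (_root_.deriv ω z) z :=
  (h.ω_diff.differentiableAt ((isOpen_US s).mem_nhds hz)).hasDerivAt

/-- the second derivative of `ψ` along a line -/
theorem IsBlochHarm.hasDerivAt_dline (h : IsBlochHarm κ s ψ ω) {z d : ℂ} (hz : z ∈ US s) :
    HasDerivAt (dline ω z d) (_root_.deriv ω z * d ^ 2 + conj (_root_.deriv ω (-z) * d ^ 2)) 0 := by
  have hl : HasDerivAt (fun r : ℝ => z + r * d) d 0 := hasDerivAt_line z d 0
  have hl' : HasDerivAt (fun r : ℝ => -(z + r * d)) (-d) 0 := hl.neg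
  have h1 : HasDerivAt (fun r : ℝ => ω (z + r * d)) (d • _root_.deriv ω z) 0 := by
    refine HasDerivAt.scomp (h := fun r : ℝ => z + r * d) (0 : ℝ) ?_ hl
    simpa using h.hasDerivAt_ω hz
  have h2 : HasDerivAt (fun r : ℝ => ω (-(z + r * d))) ((-d) • _root_.deriv ω (-z)) 0 := by
    refine HasDerivAt.scomp (h := fun r : ℝ => -(z + r * d)) (0 : ℝ) ?_ hl'
    simpa using h.hasDerivAt_ω (US_neg hz)
  have h3 : HasDerivAt (fun r : ℝ => conj (ω (-(z + r * d)))) (conj ((-d) • _root_.deriv ω (-z))) 0 :=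
    (conjCLE : ℂ →L[ℝ] ℂ).hasFDerivAt.comp_hasDerivAt 0 h2
  have h4 := (h1.mul_const d).add (h3.neg.mul_const (conj d))
  refine h4.congr_deriv ?_
  simp only [smul_eq_mul, map_mul, map_neg, map_pow]
  ring

/-- the derivative of `‖ψ‖²` along a line -/
theorem IsBlochHarm.hasDerivAt_normSq (h : IsBlochHarm κ s ψ ω) {z d : ℂ} {r : ℝ}
    (hz : z + r * d ∈ US s) : HasDerivAt (fun r : ℝ => ‖ψ (z + r * d)‖ ^ 2)
      (2 * inner ℝ (ψ (z + r * d)) (dline ω z d r)) r :=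
  (h.hasDerivAt_along hz).norm_sq

theorem IsBlochHarm.hasDerivAt_normSq2 (h : IsBlochHarm κ s ψ ω) {z d : ℂ}
    (hz : z ∈ US s) : HasDerivAt (fun r : ℝ => 2 * inner ℝ (ψ (z + r * d)) (dline ω z d r))
      (2 * (inner ℝ (ψ z) (_root_.deriv ω z * d ^ 2 + conj (_root_.deriv ω (-z) * d ^ 2)) +
        ‖dline ω z d 0‖ ^ 2)) 0 := by
  have h1 : HasDerivAt (fun r : ℝ => ψ (z + r * d)) (dline ω z d 0) 0 :=
    h.hasDerivAt_along (by simpa using hz)
  have h2 := (HasDerivAt.inner ℝ h1 (h.hasDerivAt_dline (d := d) hz)).const_mul 2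
  refine h2.congr_deriv ?_
  rw [real_inner_self_eq_norm_sq]
  simp

theorem eventually_line {z d : ℂ} (hz : z ∈ US s) : ∀ᶠ r : ℝ in 𝓝 0, z + (r : ℂ) * d ∈ US s := by
  have hc : ContinuousAt (fun r : ℝ => z + r * d) 0 := (hasDerivAt_line z d 0).continuousAt
  refine hc.eventually ?_
  exact (isOpen_US s).mem_nhds (by simpa using hz)

/-- images of a vector under the four symmetries -/
noncomputable def gE (e : ℂ) : Fin 4 → ℂ := ![e, I * e, conj e, I * conj e]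

theorem gE_sq (i : Fin 4) : gE I i ^ 2 = -(gE 1 i ^ 2) := by
  fin_cases i
  · simp [gE]
  · simp [gE]
  · simp [gE]
  · simp [gE]

theorem quad_line (ψ : ℂ → ℂ) (x e : ℂ) (r : ℝ) (i : Fin 4) :
    quad ψ (x + r * e) i = ψ (gE x i + r * gE e i) := by
  fin_cases i
  · simp [quad, gE]
  · simp only [quad, gE, Fin.mk_one, Matrix.cons_val_one, Matrix.cons_val_zero]
    congr 1
    ring
  · simp only [quad, gE, Fin.reduceFinMk, Matrix.cons_val, map_add, map_mul, conj_ofReal]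
  · simp only [quad, gE, Fin.reduceFinMk, Matrix.cons_val, map_add, map_mul, conj_ofReal]
    congr 1
    ring

theorem gE_mem {x : ℂ} (hx : x ∈ US s) (i : Fin 4) : gE x i ∈ US s := by
  fin_cases i
  · exact hx
  · exact US_I hx
  · exact US_conj hx
  · exact US_I (US_conj hx)

/-- at a local maximum of `∑ |ψ ∘ g|²` the derivative of `ψ` vanishes -/
theorem IsBlochHarm.local_max (h : IsBlochHarm κ s ψ ω) {x : ℂ} (hx : x ∈ US s)
    (hmax : IsLocalMax (fun z => ∑ i, ‖quad ψ z i‖ ^ 2) x) : ω x = 0 ∧ ω (-x) = 0 := by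
  have key : ∀ e : ℂ, ∑ i, 2 * (inner ℝ (ψ (gE x i)) (_root_.deriv ω (gE x i) * gE e i ^ 2 +
      conj (_root_.deriv ω (-(gE x i)) * gE e i ^ 2)) + ‖dline ω (gE x i) (gE e i) 0‖ ^ 2) ≤ 0 := by
    intro e
    refine second_deriv_nonpos (h := fun r : ℝ => ∑ i, ‖ψ (gE x i + r * gE e i)‖ ^ 2)
      (h' := fun r : ℝ => ∑ i, 2 * inner ℝ (ψ (gE x i + r * gE e i))
        (dline ω (gE x i) (gE e i) r)) ?_ ?_ ?_
    · have hev : ∀ᶠ r : ℝ in 𝓝 0, ∀ i, gE x i + (r : ℂ) * gE e i ∈ US s :=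
        eventually_all.2 fun i => eventually_line (gE_mem hx i)
      filter_upwards [hev] with r hr
      exact HasDerivAt.fun_sum fun i _ => h.hasDerivAt_normSq (hr i)
    · exact HasDerivAt.fun_sum fun i _ => h.hasDerivAt_normSq2 (gE_mem hx i)
    · have hc : ContinuousAt (fun r : ℝ => x + r * e) 0 := (hasDerivAt_line x e 0).continuousAt
      have hmax' : ∀ᶠ r : ℝ in 𝓝 0, (∑ i, ‖quad ψ (x + (r : ℂ) * e) i‖ ^ 2) ≤
          ∑ i, ‖quad ψ x i‖ ^ 2 := by
        have h0 : x + ((0 : ℝ) : ℂ) * e = x := by simp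
        have h1 := hc.tendsto
        simp only [h0] at h1
        exact h1.eventually hmax
      filter_upwards [hmax'] with r hr
      simp only [quad_line] at hr
      have h2 : ∀ i, quad ψ x i = ψ (gE x i + ((0 : ℝ) : ℂ) * gE e i) := by
        intro i
        rw [← quad_line ψ x e 0 i]
        simp
      simp only [h2] at hr
      exact hr
  have k1 := key 1
  have k2 := key I
  have h3 : ∑ i, (‖dline ω (gE x i) (gE 1 i) 0‖ ^ 2 + ‖dline ω (gE x i) (gE I i) 0‖ ^ 2) ≤ 0 := by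
    have h4 : ∀ i, _root_.deriv ω (gE x i) * gE I i ^ 2 + conj (_root_.deriv ω (-(gE x i)) * gE I i ^ 2) =
        -(_root_.deriv ω (gE x i) * gE 1 i ^ 2 + conj (_root_.deriv ω (-(gE x i)) * gE 1 i ^ 2)) := by
      intro i
      rw [gE_sq]
      simp only [map_mul, map_neg, map_pow]
      ring
    simp only [h4, inner_neg_right] at k2
    rw [← Finset.mul_sum, Finset.sum_add_distrib] at k1 k2
    rw [Finset.sum_neg_distrib] at k2
    rw [Finset.sum_add_distrib]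
    linarith
  have h5 : ‖dline ω x 1 0‖ ^ 2 + ‖dline ω x I 0‖ ^ 2 ≤ 0 := by
    have h6 := Finset.single_le_sum (f := fun i => ‖dline ω (gE x i) (gE 1 i) 0‖ ^ 2 +
      ‖dline ω (gE x i) (gE I i) 0‖ ^ 2) (fun i _ => by positivity) (Finset.mem_univ (0 : Fin 4))
    exact (le_trans (by simp [gE]) h6).trans h3
  have h7 : dline ω x 1 0 = 0 := by
    rw [← norm_eq_zero, ← sq_eq_zero_iff]
    exact le_antisymm (by nlinarith [sq_nonneg ‖dline ω x I 0‖]) (sq_nonneg _)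
  have h8 : dline ω x I 0 = 0 := by
    rw [← norm_eq_zero, ← sq_eq_zero_iff]
    exact le_antisymm (by nlinarith [sq_nonneg ‖dline ω x 1 0‖]) (sq_nonneg _)
  simp only [dline, ofReal_zero, zero_mul, add_zero, map_one, mul_one, conj_I] at h7 h8
  have h9 : ω x + conj (ω (-x)) = 0 := by
    have : I * (ω x + conj (ω (-x))) = 0 := by linear_combination h8
    exact (mul_eq_zero.1 this).resolve_left I_ne_zero
  constructor
  · linear_combination (h7 + h9) / 2
  · have h10 : conj (ω (-x)) = 0 := by linear_combination (h9 - h7) / 2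
    rwa [map_eq_zero] at h10

/-! ### The maximum over `ES t` -/

theorem IsBlochHarm.quad_norm_add (h : IsBlochHarm κ s ψ ω) {x : ℂ} (hx : x ∈ US s)
    (p : ℤ × ℤ) : ∑ i, ‖quad ψ (x + lp p) i‖ ^ 2 = ∑ i, ‖quad ψ x i‖ ^ 2 := by
  have h1 : ‖ψ (x + lp p)‖ = ‖ψ x‖ := h.norm_ψ_add hx p
  have h2 : ‖ψ (I * (x + lp p))‖ = ‖ψ (I * x)‖ := by
    rw [mul_add, I_mul_lp]
    exact h.norm_ψ_add (US_I hx) _
  have h3 : ‖ψ (conj (x + lp p))‖ = ‖ψ (conj x)‖ := by
    rw [map_add, conj_lp]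
    exact h.norm_ψ_add (US_conj hx) _
  have h4 : ‖ψ (I * conj (x + lp p))‖ = ‖ψ (I * conj x)‖ := by
    rw [map_add, mul_add, conj_lp, I_mul_lp]
    exact h.norm_ψ_add (US_I (US_conj hx)) _
  rw [Fin.sum_univ_four, Fin.sum_univ_four]
  simp only [quad, Matrix.cons_val_zero, Matrix.cons_val_one, Matrix.cons_val]
  rw [h1, h2, h3, h4]

theorem IsBlochHarm.quad_continuousOn (h : IsBlochHarm κ s ψ ω) :
    ContinuousOn (fun z => ∑ i, ‖quad ψ z i‖ ^ 2) (US s) := by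
  refine continuousOn_finsetSum _ fun i _ => ?_
  refine (ContinuousOn.norm ?_).pow 2
  intro x hx
  exact (h.quad_deriv hx i).continuousAt.continuousWithinAt

variable {N : ℕ} {η t c σ : ℝ} {v ν : ℂ → ℂ} {ρ : ℂ → ℝ}

theorem norm_sq_uMap' (c : ℝ) (ψ : ℂ → ℂ) (x : ℂ) :
    ‖uMap c ψ x‖ ^ 2 = c ^ 2 * ∑ i, ‖quad ψ x i‖ ^ 2 := by
  rw [norm_sq_uMap, Fin.sum_univ_four]
  simp [quad]

/-- `|u| = 1` on the hole boundaries -/
theorem IsSol.norm_eq_one (h : IsSol N η t c σ ψ ω v ν ρ) {x : ℂ} {p : ℤ × ℤ}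
    (hx : ‖x - lp p‖ = t) : ‖uMap c ψ x‖ = 1 := by
  have htl := h.tlt
  have htp := h.tpos
  have hU : x - lp p ∈ US (t / 2) :=
    ES_subset_US_half h.tpos (mem_ES_of_norm (hx.ge) (by rw [hx]; linarith))
  have h1 : ‖uMap c ψ x‖ ^ 2 = 1 := by
    have h2 := h.psi.quad_norm_add hU p
    rw [sub_add_cancel] at h2
    rw [norm_sq_uMap', h2, ← norm_sq_uMap', norm_sq_uMap]
    exact h.sphere _ hx
  nlinarith [norm_nonneg (uMap c ψ x), sq_nonneg (‖uMap c ψ x‖ - 1)]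

theorem IsSol.g3 (h : IsSol N η t c σ ψ ω v ν ρ) (hN : 1 ≤ N) (hη : η ≤ 1 / 4) : G3 t c ψ := by
  have htl := h.tlt
  have htp := h.tpos
  set F : ℂ → ℝ := fun z => ∑ i, ‖quad ψ z i‖ ^ 2 with hF
  have hc : c ≠ 0 := by
    intro hc
    have := h.cnear
    rw [hc, zero_sub, abs_neg, abs_of_pos (by norm_num)] at this
    linarith
  have hc2 : 0 < c ^ 2 := by positivity
  have hsub : ES t ⊆ US (t / 2) := ES_subset_US_half h.tpos
  -- no local maximum at a point of `ES t`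
  have hno : ∀ x ∈ ES t, ¬ IsLocalMax F x := by
    intro x hx hmax
    obtain ⟨h1, h2⟩ := h.psi.local_max (hsub hx) hmax
    obtain ⟨p, hp⟩ := exists_near_le x
    have hx' : x - lp p ∈ ES t := (mem_ES_sub p).2 hx
    have h3 : t ≤ ‖x - lp p‖ := hx p
    have hU : x - lp p ∈ US (t / 2) := hsub hx'
    have h4 : ‖ω x‖ = ‖ω (x - lp p)‖ := by
      rw [← h.psi.norm_ω_add hU p, sub_add_cancel]
    have h5 : ‖ω (-x)‖ = ‖ω (-(x - lp p))‖ := by
      rw [← h.psi.norm_ω_add (US_neg hU) (-p), lp_neg]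
      congr 2
      ring
    rcases omega_ne_zero (ω := ω) hN hη h.tpos h3 (h.omclose _ h3 hp)
      (h.omclose _ (by rwa [norm_neg]) (by rwa [norm_neg])) with h6 | h6
    · apply h6
      rw [← norm_eq_zero, ← h4, h1, norm_zero]
    · apply h6
      rw [← norm_eq_zero, ← h5, h2, norm_zero]
  -- the maximum over the compact fundamental domain
  set K : Set ℂ := ES t ∩ {z | |z.re| ≤ 1 / 2 ∧ |z.im| ≤ 1 / 2} with hK
  have hKc : IsCompact K := by
    refine Metric.isCompact_of_isClosed_isBounded ((isClosed_ES t).inter ?_) ?_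
    · have h1 : IsClosed {z : ℂ | |z.re| ≤ 1 / 2} :=
        isClosed_le (continuous_re.abs) continuous_const
      have h2 : IsClosed {z : ℂ | |z.im| ≤ 1 / 2} :=
        isClosed_le (continuous_im.abs) continuous_const
      exact h1.inter h2
    · rw [isBounded_iff_forall_norm_le]
      exact ⟨Real.sqrt 2 / 2, fun z hz => norm_le_of_square hz.2.1 hz.2.2⟩
  have hKne : K.Nonempty := by
    refine ⟨(1 / 2 : ℝ), mem_ES_of_norm ?_ ?_, ?_, ?_⟩
    · rw [norm_real]; norm_num; linarith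
    · rw [norm_real]; norm_num; linarith
    · rw [ofReal_re]; norm_num
    · rw [ofReal_im]; norm_num
  obtain ⟨x₀, hx₀K, hx₀⟩ := hKc.exists_isMaxOn hKne
    (h.psi.quad_continuousOn.mono (inter_subset_left.trans hsub))
  have hmax : ∀ y ∈ ES t, F y ≤ F x₀ := by
    intro y hy
    obtain ⟨p, hp1, hp2⟩ := exists_near y
    have hy' : y - lp p ∈ K := ⟨(mem_ES_sub p).2 hy, hp1, hp2⟩
    have h1 : F (y - lp p) ≤ F x₀ := hx₀ hy'
    have h2 := h.psi.quad_norm_add (hsub hy'.1) p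
    rw [sub_add_cancel] at h2
    rw [hF] at h1 ⊢
    simp only at h1 ⊢
    rw [h2]
    exact h1
  have hlm : ∀ y ∈ US t, F y < F x₀ := by
    intro y hy
    refine lt_of_le_of_ne (hmax y (US_subset_ES t hy)) fun heq => ?_
    refine hno y (US_subset_ES t hy) ?_
    filter_upwards [(isOpen_US t).mem_nhds hy] with z hz
    rw [heq]
    exact hmax z (US_subset_ES t hz)
  have hx₀b : ∃ p : ℤ × ℤ, ‖x₀ - lp p‖ = t := by
    by_contra hcon
    push Not at hcon
    exact lt_irrefl _ (hlm x₀ fun p => lt_of_le_of_ne (hx₀K.1 p) (Ne.symm (hcon p)))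
  obtain ⟨p, hp⟩ := hx₀b
  have h1 := h.norm_eq_one hp
  refine ⟨fun x hx => ?_, fun x p hp => h.norm_eq_one hp⟩
  have h2 : ‖uMap c ψ x‖ ^ 2 < 1 := by
    have h3 : ‖uMap c ψ x₀‖ ^ 2 = 1 := by rw [h1]; norm_num
    rw [norm_sq_uMap'] at h3 ⊢
    rw [← h3]
    exact mul_lt_mul_of_pos_left (hlm x hx) hc2
  nlinarith [norm_nonneg (uMap c ψ x)]

/-- **G3**, in the form of the interface. -/
theorem g3 : ∃ (η : ℝ) (N₁ : ℕ), 0 < η ∧ ∀ N : ℕ, N₁ ≤ N → ∀ (t c σ : ℝ) (ψ ω v ν : ℂ → ℂ)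
    (ρ : ℂ → ℝ), IsSol N η t c σ ψ ω v ν ρ → G3 t c ψ :=
  ⟨1 / 4, 1, by norm_num, fun _ hN _ _ _ _ _ _ _ _ h => h.g3 hN le_rfl⟩

end FB
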