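import Pool.Agent.FB.GeoA.Lat

/-! MP_15d50e_gt, module GEO, part G1: `u` is a conformal immersion. -/

set_option autoImplicit false

open Complex Set
open scoped ComplexConjugate Real

namespace FB

/-! ### The isometry `ℂ⁴ → ℝ⁸` -/

/-- the real coordinates of a vector of `ℂ⁴` -/
noncomputable def toEu8 : (Fin 4 → ℂ) →ₗ[ℝ] Eu 8 where
  toFun z := WithLp.toLp 2 (![(z 0).re, (z 0).im, (z 1).re, (z 1).im, (z 2).re, (z 2).im, (z 3).re,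
    (z 3).im])
  map_add' z w := by
    ext i
    fin_cases i <;> simp
  map_smul' r z := by
    ext i
    fin_cases i <;> simp

/-- the continuous linear map `toEu8` -/
noncomputable def toEu8L : (Fin 4 → ℂ) →L[ℝ] Eu 8 := LinearMap.toContinuousLinearMap toEu8

theorem toEu8L_apply (z : Fin 4 → ℂ) : toEu8L z = WithLp.toLp 2 (![(z 0).re, (z 0).im, (z 1).re,
    (z 1).im, (z 2).re, (z 2).im, (z 3).re, (z 3).im]) := rfl

theorem inner_toEu8L (z w : Fin 4 → ℂ) :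
    inner ℝ (toEu8L z) (toEu8L w) = ∑ i, (z i * conj (w i)).re := by
  rw [toEu8L_apply, toEu8L_apply, PiLp.inner_apply, Fin.sum_univ_eight, Fin.sum_univ_four]
  simp [mul_re]
  ring

theorem norm_sq_toEu8L (z : Fin 4 → ℂ) : ‖toEu8L z‖ ^ 2 = ∑ i, ‖z i‖ ^ 2 := by
  rw [← real_inner_self_eq_norm_sq, inner_toEu8L]
  refine Finset.sum_congr rfl fun i _ => ?_
  rw [mul_conj, ofReal_re, Complex.sq_norm]

/-- the four values of `ψ` -/
def quad (ψ : ℂ → ℂ) (x : ℂ) : Fin 4 → ℂ := ![ψ x, ψ (I * x), ψ (conj x), ψ (I * conj x)]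

theorem uMap_eq (c : ℝ) (ψ : ℂ → ℂ) (x : ℂ) : uMap c ψ x = c • toEu8L (quad ψ x) := by
  rw [toEu8L_apply, uMap]
  ext i
  fin_cases i <;> simp [quad]

theorem norm_sq_uMap (c : ℝ) (ψ : ℂ → ℂ) (x : ℂ) : ‖uMap c ψ x‖ ^ 2 =
    c ^ 2 * (‖ψ x‖ ^ 2 + ‖ψ (I * x)‖ ^ 2 + ‖ψ (conj x)‖ ^ 2 + ‖ψ (I * conj x)‖ ^ 2) := by
  rw [uMap_eq, norm_smul, mul_pow, norm_sq_toEu8L, Fin.sum_univ_four, Real.norm_eq_abs, sq_abs]
  simp [quad]

/-! ### Derivatives -/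

/-- `A`-parts of the derivatives of the four components -/
noncomputable def qA (ω : ℂ → ℂ) (x : ℂ) : Fin 4 → ℂ :=
  ![ω x, ω (I * x) * I, -conj (ω (-conj x)), conj (ω (-(I * conj x))) * I]

/-- `B`-parts of the derivatives of the four components -/
noncomputable def qB (ω : ℂ → ℂ) (x : ℂ) : Fin 4 → ℂ :=
  ![-conj (ω (-x)), conj (ω (-(I * x))) * I, ω (conj x), ω (I * conj x) * I]

theorem dpair_comp_I (a b : ℂ) :
    (dpair a b).comp (ContinuousLinearMap.mul ℝ ℂ I) = dpair (a * I) (-b * I) := by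
  ext w
  simp
  ring

theorem dpair_comp_conj (a b : ℂ) :
    (dpair a b).comp (conjCLE : ℂ →L[ℝ] ℂ) = dpair b a := by
  ext w
  simp
  ring

variable {κ : ℂ} {s : ℝ} {ψ ω : ℂ → ℂ}

theorem IsBlochHarm.quad_deriv (h : IsBlochHarm κ s ψ ω) {x : ℂ} (hx : x ∈ US s) (i : Fin 4) :
    HasFDerivAt (fun z => quad ψ z i) (dpair (qA ω x i) (qB ω x i)) x := by
  have h1 := h.deriv x hx
  have h2 : HasFDerivAt (fun z => ψ (I * z))
      ((dpair (ω (I * x)) (-(conj (ω (-(I * x)))))).comp (ContinuousLinearMap.mul ℝ ℂ I)) x :=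
    (h.deriv (I * x) (US_I hx)).comp x (ContinuousLinearMap.mul ℝ ℂ I).hasFDerivAt
  have h3 : HasFDerivAt (fun z => ψ (conj z))
      ((dpair (ω (conj x)) (-(conj (ω (-(conj x)))))).comp (conjCLE : ℂ →L[ℝ] ℂ)) x :=
    (h.deriv (conj x) (US_conj hx)).comp x (conjCLE : ℂ →L[ℝ] ℂ).hasFDerivAt
  have h4 : HasFDerivAt (fun z => ψ (I * conj z))
      (((dpair (ω (I * conj x)) (-(conj (ω (-(I * conj x)))))).comp
        (ContinuousLinearMap.mul ℝ ℂ I)).comp (conjCLE : ℂ →L[ℝ] ℂ)) x := by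
    have h5 : HasFDerivAt (fun z => ψ (I * z))
        ((dpair (ω (I * conj x)) (-(conj (ω (-(I * conj x)))))).comp
          (ContinuousLinearMap.mul ℝ ℂ I)) (conj x) :=
      (h.deriv (I * conj x) (US_I (US_conj hx))).comp (conj x)
        (ContinuousLinearMap.mul ℝ ℂ I).hasFDerivAt
    exact HasFDerivAt.comp (f := fun z : ℂ => conj z) x h5 (conjCLE : ℂ →L[ℝ] ℂ).hasFDerivAt
  rw [dpair_comp_I] at h2
  rw [dpair_comp_conj] at h3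
  rw [dpair_comp_I, dpair_comp_conj] at h4
  rw [neg_neg] at h2 h4
  fin_cases i
  · exact h1
  · exact h2
  · exact h3
  · exact h4

/-- the derivative of `u` -/
noncomputable def duMap (c : ℝ) (ω : ℂ → ℂ) (x : ℂ) : ℂ →L[ℝ] Eu 8 :=
  c • toEu8L.comp (ContinuousLinearMap.pi fun i => dpair (qA ω x i) (qB ω x i))

theorem duMap_apply (c : ℝ) (ω : ℂ → ℂ) (x w : ℂ) :
    duMap c ω x w = c • toEu8L fun i => qA ω x i * w + qB ω x i * conj w := by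
  have h : (ContinuousLinearMap.pi fun i => dpair (qA ω x i) (qB ω x i)) w =
      fun i => qA ω x i * w + qB ω x i * conj w := by
    funext i
    rw [ContinuousLinearMap.pi_apply, dpair_apply]
  simp [duMap, h]

theorem IsBlochHarm.hasFDerivAt_uMap (h : IsBlochHarm κ s ψ ω) (c : ℝ) {x : ℂ} (hx : x ∈ US s) :
    HasFDerivAt (uMap c ψ) (duMap c ω x) x := by
  have h1 : HasFDerivAt (quad ψ) (ContinuousLinearMap.pi fun i => dpair (qA ω x i) (qB ω x i)) x :=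
    hasFDerivAt_pi.2 fun i => h.quad_deriv hx i
  have h2 : HasFDerivAt (fun z => c • toEu8L (quad ψ z)) (duMap c ω x) x :=
    (toEu8L.hasFDerivAt.comp x h1).const_smul c
  have h3 : uMap c ψ = fun z => c • toEu8L (quad ψ z) := funext fun z => uMap_eq c ψ z
  rw [h3]
  exact h2

/-! ### Conformality -/

/-- algebra: if `∑ A conj B = 0` then `w ↦ (A w + B conj w)` is conformal -/
theorem conf_algebra {A B : Fin 4 → ℂ} (h : ∑ i, A i * conj (B i) = 0) :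
    (∑ i, ‖A i * 1 + B i * conj (1 : ℂ)‖ ^ 2 = ∑ i, (‖A i‖ ^ 2 + ‖B i‖ ^ 2)) ∧
    (∑ i, ‖A i * I + B i * conj I‖ ^ 2 = ∑ i, (‖A i‖ ^ 2 + ‖B i‖ ^ 2)) ∧
    ∑ i, ((A i * 1 + B i * conj (1 : ℂ)) * conj (A i * I + B i * conj I)).re = 0 := by
  have hre := congrArg Complex.re h
  have him := congrArg Complex.im h
  simp only [Fin.sum_univ_four, add_re, add_im, mul_re, mul_im, conj_re, conj_im, zero_re,
    zero_im] at hre him
  refine ⟨?_, ?_, ?_⟩ <;>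
  simp only [Complex.sq_norm, normSq_apply, Fin.sum_univ_four, add_re, add_im, mul_re, mul_im,
    conj_re, conj_im, one_re, one_im, I_re, I_im]
  · linear_combination 2 * hre
  · linear_combination -2 * hre
  · linear_combination -2 * him

theorem sum_qA_qB (ω : ℂ → ℂ) (x : ℂ) : ∑ i, qA ω x i * conj (qB ω x i) =
    -(ω x * ω (-x)) + ω (I * x) * ω (-(I * x))
    - conj (ω (conj x) * ω (-(conj x))) + conj (ω (I * conj x) * ω (-(I * conj x))) := by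
  rw [Fin.sum_univ_four]
  simp only [qA, qB, Matrix.cons_val_zero, Matrix.cons_val_one, Matrix.cons_val, map_neg, map_mul,
    conj_conj, conj_I]
  linear_combination (-(ω (I * x) * ω (-(I * x))) -
    conj (ω (I * conj x)) * conj (ω (-(I * conj x)))) * I_sq

/-- the model derivative does not vanish at `x` and `-x` simultaneously -/
theorem modelOm_sq (κ : ℂ) {t : ℝ} (ht : 0 < t) {x : ℂ} (hx : t ≤ ‖x‖) :
    ‖κ‖ ^ 2 / 2 ≤ ‖modelOm κ t x‖ ^ 2 + ‖modelOm κ t (-x)‖ ^ 2 := by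
  have hx0 : 0 < ‖x‖ := ht.trans_le hx
  set a : ℂ := I * conj κ - I * κ * (t : ℂ) ^ 2 / x ^ 2 with ha
  set b : ℂ := ((Real.sqrt 2 * ‖κ‖ * t : ℝ) : ℂ) / x with hb
  have h1 : modelOm κ t x = (1 / 2 : ℂ) * (a - b) := by
    rw [modelOm, ha, hb]
  have h2 : modelOm κ t (-x) = (1 / 2 : ℂ) * (a + b) := by
    rw [modelOm, ha, hb, div_neg, sub_neg_eq_add, neg_sq]
  have h3 : ‖a - b‖ ^ 2 + ‖a + b‖ ^ 2 = 2 * ‖a‖ ^ 2 + 2 * ‖b‖ ^ 2 := by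
    simp only [Complex.sq_norm, normSq_apply, sub_re, sub_im, add_re, add_im]
    ring
  set q : ℝ := t ^ 2 / ‖x‖ ^ 2 with hq
  have hq1 : q ≤ 1 := by
    rw [hq, div_le_one (by positivity)]
    gcongr
  have hq0 : 0 ≤ q := by positivity
  have h4 : ‖κ‖ * (1 - q) ≤ ‖a‖ := by
    have h5 : ‖I * conj κ‖ - ‖I * κ * (t : ℂ) ^ 2 / x ^ 2‖ ≤ ‖a‖ := norm_sub_norm_le _ _
    have h6 : ‖I * conj κ‖ = ‖κ‖ := by rw [norm_mul, norm_I, one_mul, Complex.norm_conj]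
    have h7 : ‖I * κ * (t : ℂ) ^ 2 / x ^ 2‖ = ‖κ‖ * q := by
      rw [norm_div, norm_mul, norm_mul, norm_I, one_mul, norm_pow, norm_pow, norm_real,
        Real.norm_of_nonneg ht.le, hq, mul_div_assoc]
    rw [h6, h7] at h5
    linarith
  have h8 : ‖b‖ ^ 2 = 2 * ‖κ‖ ^ 2 * q := by
    rw [hb, norm_div, norm_real, Real.norm_of_nonneg (by positivity), div_pow, mul_pow, mul_pow,
      Real.sq_sqrt (by norm_num), hq]
    ring
  have h9 : (‖κ‖ * (1 - q)) ^ 2 ≤ ‖a‖ ^ 2 :=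
    pow_le_pow_left₀ (mul_nonneg (norm_nonneg _) (by linarith)) h4 2
  have h10 : ‖(1 / 2 : ℂ)‖ = 1 / 2 := by simp
  rw [h1, h2, norm_mul, norm_mul, mul_pow, mul_pow, h10]
  have h11 : (1 / 2 : ℝ) ^ 2 * ‖a - b‖ ^ 2 + (1 / 2) ^ 2 * ‖a + b‖ ^ 2 =
      1 / 2 * ‖a‖ ^ 2 + 1 / 2 * ‖b‖ ^ 2 := by
    linear_combination (1 / 4 : ℝ) * h3
  rw [h11, h8]
  nlinarith [sq_nonneg (‖κ‖ * q), sq_nonneg ‖κ‖]

theorem omega_ne_zero {N : ℕ} {η t : ℝ} (hN : 1 ≤ N) (hη : η ≤ 1 / 4) (ht : 0 < t)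
    {ω : ℂ → ℂ} {x : ℂ} (hx : t ≤ ‖x‖)
    (h1 : ‖ω x - modelOm (kap N) t x‖ ≤ η * ‖kap N‖)
    (h2 : ‖ω (-x) - modelOm (kap N) t (-x)‖ ≤ η * ‖kap N‖) : ω x ≠ 0 ∨ ω (-x) ≠ 0 := by
  by_contra hc
  push Not at hc
  rw [hc.1, zero_sub, norm_neg] at h1
  rw [hc.2, zero_sub, norm_neg] at h2
  have hk := norm_kap_pos hN
  have h3 := modelOm_sq (kap N) ht hx
  have h4 : η * ‖kap N‖ ≤ 1 / 4 * ‖kap N‖ := by gcongr
  have h5 : ‖modelOm (kap N) t x‖ ^ 2 ≤ (1 / 4 * ‖kap N‖) ^ 2 :=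
    pow_le_pow_left₀ (norm_nonneg _) (h1.trans h4) 2
  have h6 : ‖modelOm (kap N) t (-x)‖ ^ 2 ≤ (1 / 4 * ‖kap N‖) ^ 2 :=
    pow_le_pow_left₀ (norm_nonneg _) (h2.trans h4) 2
  nlinarith [sq_nonneg ‖kap N‖, pow_pos hk 2]

variable {N : ℕ} {η t c σ : ℝ} {v ν : ℂ → ℂ} {ρ : ℂ → ℝ}

/-- the derivative of `u` does not vanish -/
theorem IsSol.sum_pos (h : IsSol N η t c σ ψ ω v ν ρ) (hN : 1 ≤ N) (hη : η ≤ 1 / 4) {x : ℂ}
    (hx : x ∈ ES t) : 0 < ∑ i, (‖qA ω x i‖ ^ 2 + ‖qB ω x i‖ ^ 2) := by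
  obtain ⟨p, hp⟩ := exists_near_le x
  have hx' : x - lp p ∈ ES t := (mem_ES_sub p).2 hx
  have h1 : t ≤ ‖x - lp p‖ := hx p
  have h2 := omega_ne_zero (ω := ω) hN hη h.tpos h1 (h.omclose _ h1 hp)
    (h.omclose _ (by rwa [norm_neg]) (by rwa [norm_neg]))
  have hU : x - lp p ∈ US (t / 2) := ES_subset_US_half h.tpos hx'
  have h3 : ‖ω x‖ = ‖ω (x - lp p)‖ := by
    rw [← h.psi.norm_ω_add hU p, sub_add_cancel]
  have h4 : ‖ω (-x)‖ = ‖ω (-(x - lp p))‖ := by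
    rw [← h.psi.norm_ω_add (US_neg hU) (-p), lp_neg]
    congr 2
    ring
  have h5 : 0 < ‖ω x‖ ^ 2 + ‖ω (-x)‖ ^ 2 := by
    rcases h2 with h2 | h2
    · have : 0 < ‖ω x‖ := by rw [h3]; exact norm_pos_iff.2 h2
      positivity
    · have : 0 < ‖ω (-x)‖ := by rw [h4]; exact norm_pos_iff.2 h2
      positivity
  have h6 : ‖ω x‖ ^ 2 + ‖ω (-x)‖ ^ 2 ≤ ∑ i, (‖qA ω x i‖ ^ 2 + ‖qB ω x i‖ ^ 2) := by
    have h7 : ‖qA ω x 0‖ ^ 2 + ‖qB ω x 0‖ ^ 2 ≤ ∑ i, (‖qA ω x i‖ ^ 2 + ‖qB ω x i‖ ^ 2) :=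
      Finset.single_le_sum (f := fun i => ‖qA ω x i‖ ^ 2 + ‖qB ω x i‖ ^ 2)
        (fun i _ => by positivity) (Finset.mem_univ 0)
    simpa [qA, qB, Complex.norm_conj] using h7
  linarith

/-- **G1.** -/
theorem IsSol.g1 (h : IsSol N η t c σ ψ ω v ν ρ) (hN : 1 ≤ N) (hη : η ≤ 1 / 4) : G1 t c ψ := by
  intro x hx
  have hU : x ∈ US (t / 2) := ES_subset_US_half h.tpos hx
  have hc : c ≠ 0 := by
    intro hc
    have := h.cnear
    rw [hc, zero_sub, abs_neg, abs_of_pos (by norm_num)] at this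
    linarith
  have hd := (h.psi.hasFDerivAt_uMap c hU).fderiv
  have hsum : ∑ i, qA ω x i * conj (qB ω x i) = 0 := by
    rw [sum_qA_qB]
    exact h.hopf x hU
  obtain ⟨h1, h2, h3⟩ := conf_algebra hsum
  have hpos := h.sum_pos hN hη hx
  have hc2 : 0 < c ^ 2 := by positivity
  have hn1 : ‖fderiv ℝ (uMap c ψ) x 1‖ ^ 2 = c ^ 2 * ∑ i, (‖qA ω x i‖ ^ 2 + ‖qB ω x i‖ ^ 2) := by
    rw [hd, duMap_apply, norm_smul, mul_pow, norm_sq_toEu8L, h1, Real.norm_eq_abs, sq_abs]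
  have hn2 : ‖fderiv ℝ (uMap c ψ) x I‖ ^ 2 = c ^ 2 * ∑ i, (‖qA ω x i‖ ^ 2 + ‖qB ω x i‖ ^ 2) := by
    rw [hd, duMap_apply, norm_smul, mul_pow, norm_sq_toEu8L, h2, Real.norm_eq_abs, sq_abs]
  refine ⟨?_, ?_, ?_⟩
  · have : 0 < ‖fderiv ℝ (uMap c ψ) x 1‖ ^ 2 := by
      rw [hn1]
      positivity
    refine lt_of_le_of_ne (norm_nonneg _) fun h0 => ?_
    rw [← h0] at this
    norm_num at this
  · have : ‖fderiv ℝ (uMap c ψ) x 1‖ ^ 2 = ‖fderiv ℝ (uMap c ψ) x I‖ ^ 2 := by rw [hn1, hn2]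
    exact (pow_left_inj₀ (norm_nonneg _) (norm_nonneg _) two_ne_zero).1 this
  · rw [hd, duMap_apply, duMap_apply, real_inner_smul_left, real_inner_smul_right, inner_toEu8L, h3,
      mul_zero, mul_zero]

/-- **G1**, in the form of the interface. -/
theorem g1 : ∃ (η : ℝ) (N₁ : ℕ), 0 < η ∧ ∀ N : ℕ, N₁ ≤ N → ∀ (t c σ : ℝ) (ψ ω v ν : ℂ → ℂ)
    (ρ : ℂ → ℝ), IsSol N η t c σ ψ ω v ν ρ → G1 t c ψ :=
  ⟨1 / 4, 1, by norm_num, fun _ hN _ _ _ _ _ _ _ _ h => h.g1 hN le_rfl⟩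

end FB
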